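import Pool.Agent.Helper45.LGB.St

/-!
# Project LGB, module NLV: the nil degree drops on `L v` for a localised vector `v`
-/

set_option autoImplicit false

namespace Pool.Agent.Helper98.LGB

open Pool.Agent.Helper45.LGB

section

variable {p : ℕ} {V : Type} [AddCommGroup V] [Module (ZMod p) V]

/-- products of operators preserving a submodule preserve it -/
private lemma pres_list (W' : Submodule (ZMod p) V) (L : List (Module.End (ZMod p) V))
    (h : ∀ a ∈ L, ∀ w ∈ W', a w ∈ W') : ∀ w ∈ W', L.prod w ∈ W' := by
  induction L with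
  | nil =>
    intro w hw
    simpa using hw
  | cons a L ih =>
    intro w hw
    rw [List.prod_cons]
    exact h a List.mem_cons_self _ (ih (fun b hb => h b (List.mem_cons_of_mem _ hb)) w hw)

/-- a nonempty product of operators preserving `W'` and mapping `v` to `W'` maps `v` to `W'` -/
private lemma kill_list (W' : Submodule (ZMod p) V) (v : V) (L : List (Module.End (ZMod p) V))
    (hL : L ≠ []) (h : ∀ a ∈ L, ∀ w ∈ W', a w ∈ W') (hv : ∀ a ∈ L, a v ∈ W') :
    L.prod v ∈ W' := by
  induction L with
  | nil => exact absurd rfl hL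
  | cons a L ih =>
    rw [List.prod_cons]
    by_cases hL' : L = []
    · rw [hL', List.prod_nil, mul_one]
      exact hv a List.mem_cons_self
    · exact h a List.mem_cons_self _ (ih hL' (fun b hb => h b (List.mem_cons_of_mem _ hb))
        (fun b hb => hv b (List.mem_cons_of_mem _ hb)))

end

theorem hNLV (hPRM : StPRM) (hLST : StLST) : StNLV := by
  intro p m _ ι E V _ _ f Y Z W W' v hctx hv hZY hZ
  obtain ⟨hE, hC, hW'W, hYW, hYW', hN⟩ := hctx
  obtain ⟨L1, L2, -, -, -, -, -, -, -⟩ := hLST p ι V f Y
  obtain ⟨Z1, -, Z3, -, -, -, -, -, -⟩ := hLST p ι V f Z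
  have hZW' : Stb f Z W' := fun y hy w hw => hYW' y (hZY hy) w hw
  have hle : Wone f Y v W' ≤ W := by
    refine sup_le (Submodule.span_le.2 ?_) hW'W
    rintro z ⟨ν, hν, rfl⟩
    exact L1 W hYW ν hν v hv
  have hstb : Stb f Z (Wone f Y v W') := by
    intro z hz
    have hmap : Wone f Y v W' ≤ (Wone f Y v W').comap (f z) := by
      refine sup_le (Submodule.span_le.2 ?_) ?_
      · rintro x ⟨ν, hν, rfl⟩
        rw [SetLike.mem_coe, Submodule.mem_comap]
        have e : f z (ν v) = (cb (f z) ν) v + ν (f z v) := by
          simp [cb, LinearMap.sub_apply, Module.End.mul_apply]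
        rw [e]
        refine Submodule.add_mem _ ?_ ?_
        · exact Submodule.mem_sup_left (Submodule.subset_span
            ⟨cb (f z) ν, Lam.lie _ _ (Lam.gen z (hZY hz)) hν, rfl⟩)
        · exact Submodule.mem_sup_right (L1 W' hYW' ν hν _ (hZ z hz))
      · intro w hw
        rw [Submodule.mem_comap]
        exact Submodule.mem_sup_right (hZW' z hz w hw)
    exact fun w hw => hmap hw
  refine ⟨⟨hE, hC, le_sup_right, hstb, hZW', ?_⟩, hle⟩
  intro l hl
  set T : Module.End (ZMod p) V :=
    ∑ σ : Equiv.Perm (Fin m), (List.ofFn fun i => l (σ i)).prod with hT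
  have hlist : ∀ (τ : Equiv.Perm (Fin m)), ∀ a ∈ (List.ofFn fun i => l (τ i)), Lam f Z a := by
    intro τ a ha
    rw [List.mem_ofFn] at ha
    obtain ⟨i, rfl⟩ := ha
    exact hl _
  have hpres : ∀ a : Module.End (ZMod p) V, Lam f Z a → ∀ w ∈ W', a w ∈ W' :=
    fun a ha w hw => Z1 W' hZW' a ha w hw
  have hmap : Wone f Y v W' ≤ W'.comap T := by
    refine sup_le (Submodule.span_le.2 ?_) ?_
    · rintro x ⟨ν, hν, rfl⟩
      rw [SetLike.mem_coe, Submodule.mem_comap]
      have h1 := hN (Fin.cons ν l : Fin (m + 1) → Module.End (ZMod p) V)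
        (fun i => by
          refine Fin.cases ?_ (fun j => ?_) i
          · simpa using hν
          · simpa using L2 Z hZY _ (hl j)) v hv
      rw [hPRM (Module.End (ZMod p) V) m ν l, Finset.sum_range_succ] at h1
      have h2 : (∑ τ : Equiv.Perm (Fin m), ((List.ofFn fun i => l (τ i)).take m).prod * ν *
          ((List.ofFn fun i => l (τ i)).drop m).prod) = T * ν := by
        rw [hT, Finset.sum_mul]
        refine Finset.sum_congr rfl fun τ _ => ?_
        have e1 : (List.ofFn fun i => l (τ i)).take m = List.ofFn fun i => l (τ i) := by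
          refine List.take_of_length_le ?_
          simp
        have e2 : (List.ofFn fun i => l (τ i)).drop m = [] := by
          refine List.drop_eq_nil_of_le ?_
          simp
        rw [e1, e2, List.prod_nil, mul_one]
      rw [h2, LinearMap.add_apply] at h1
      have h3 : (∑ j ∈ Finset.range m, ∑ τ : Equiv.Perm (Fin m),
          ((List.ofFn fun i => l (τ i)).take j).prod * ν *
            ((List.ofFn fun i => l (τ i)).drop j).prod) v ∈ W' := by
        rw [LinearMap.sum_apply]
        refine Submodule.sum_mem _ fun j hj => ?_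
        rw [LinearMap.sum_apply]
        refine Submodule.sum_mem _ fun τ _ => ?_
        have hj' : j < m := Finset.mem_range.1 hj
        have hdrop : ((List.ofFn fun i => l (τ i)).drop j).prod v ∈ W' := by
          refine kill_list W' v _ ?_ (fun a ha => hpres a (hlist τ a (List.mem_of_mem_drop ha)))
            (fun a ha => Z3 W' v hZW' hZ a (hlist τ a (List.mem_of_mem_drop ha)))
          intro h0
          have := congrArg List.length h0
          simp at this
          omega
        have e3 : (((List.ofFn fun i => l (τ i)).take j).prod * ν *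
            ((List.ofFn fun i => l (τ i)).drop j).prod) v =
            ((List.ofFn fun i => l (τ i)).take j).prod
              (ν (((List.ofFn fun i => l (τ i)).drop j).prod v)) := rfl
        rw [e3]
        exact pres_list W' _ (fun a ha => hpres a (hlist τ a (List.mem_of_mem_take ha))) _
          (L1 W' hYW' ν hν _ hdrop)
      have h4 : T (ν v) = (T * ν) v := rfl
      rw [h4]
      exact (Submodule.add_mem_iff_right _ h3).1 h1
    · intro w hw
      rw [Submodule.mem_comap, hT, LinearMap.sum_apply]
      refine Submodule.sum_mem _ fun τ _ => ?_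
      exact pres_list W' _ (fun a ha => hpres a (hlist τ a ha)) w hw
  exact fun w hw => hmap hw

end Pool.Agent.Helper98.LGB
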